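import Pool.Agent.PSS.StmtsS4

/-!
# Squad PSS, rows RFU and FTZ
-/

set_option autoImplicit false

open scoped BigOperators

noncomputable section

namespace Pool.Agent.PSS.H56

open Polynomial

/-- RFU. -/
theorem rfu : RfuStmt := by
  intro R V A K K' _ _ _ _ _ _ _ α lam x y x' y' h h' z hz
  have hzc : ∀ v, α v * z = z * α v := by
    intro v
    have h1 : α v * (z * α v⁻¹) = z := hz v trivial
    calc α v * z = α v * (z * (α v⁻¹ * α v)) := by
          rw [← map_mul, inv_mul_cancel, map_one, mul_one]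
      _ = α v * (z * α v⁻¹) * α v := by simp only [mul_assoc]
      _ = z * α v := by rw [h1]
  have h2 : ∀ k', ∑ k, ∑ v, lam (α v⁻¹ * y' k' * x k) • (α v * y k) = y' k' := by
    intro k'
    conv_rhs => rw [← h.e2 (y' k')]
    refine Finset.sum_congr rfl fun k _ => ?_
    rw [← Equiv.sum_comp (Equiv.inv V)]
    refine Finset.sum_congr rfl fun v _ => ?_
    rw [Equiv.inv_apply, inv_inv, mul_assoc, h.sym, mul_assoc]
  have h3 : ∀ k, x k * z * y k =
      ∑ k', x' k' * z * ∑ v, lam (α v⁻¹ * y' k' * x k) • (α v * y k) := by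
    intro k
    conv_lhs => rw [← h'.e1 (x k)]
    rw [Finset.sum_mul, Finset.sum_mul]
    refine Finset.sum_congr rfl fun k' _ => ?_
    rw [Finset.sum_mul, Finset.sum_mul, Finset.mul_sum]
    refine Finset.sum_congr rfl fun v _ => ?_
    rw [smul_mul_assoc, smul_mul_assoc, mul_smul_comm]
    congr 1
    rw [mul_assoc (x' k') (α v) z, hzc]
    simp only [mul_assoc]
  calc ∑ k, x k * z * y k
      = ∑ k, ∑ k', x' k' * z * ∑ v, lam (α v⁻¹ * y' k' * x k) • (α v * y k) :=
        Finset.sum_congr rfl fun k _ => h3 k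
    _ = ∑ k', ∑ k, x' k' * z * ∑ v, lam (α v⁻¹ * y' k' * x k) • (α v * y k) :=
        Finset.sum_comm
    _ = ∑ k', x' k' * z * y' k' := by
        refine Finset.sum_congr rfl fun k' _ => ?_
        rw [← Finset.mul_sum, h2]

/-- FTZ. -/
theorem ftz : FtzStmt := by
  intro F A _ _ _ _ I hI hid z hz hzc
  have hcen : ∀ p : F[X], ∀ a, aeval z p * a = a * aeval z p := by
    intro p a
    have h1 : Algebra.adjoin F {z} ≤ Subalgebra.center F A := by
      refine Algebra.adjoin_le ?_
      intro w hw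
      rw [Set.mem_singleton_iff] at hw
      rw [hw]
      exact Subalgebra.mem_center_iff.2 fun b => (hzc b).symm
    exact (Subalgebra.mem_center_iff.1 (h1 (aeval_mem_adjoin_singleton F z)) a).symm
  have hm0 : minpoly F z ≠ 0 := minpoly.ne_zero (Algebra.IsIntegral.isIntegral z)
  obtain ⟨q, hq, hnd⟩ := exists_eq_pow_rootMultiplicity_mul_and_not_dvd (minpoly F z) hm0 0
  rw [C_0, sub_zero] at hq hnd
  obtain ⟨n, hn⟩ : ∃ n, n = rootMultiplicity 0 (minpoly F z) := ⟨_, rfl⟩
  rw [← hn] at hq
  have hcop : IsCoprime (X ^ (n + 1)) q :=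
    IsCoprime.pow_left ((irreducible_X.coprime_iff_not_dvd).2 hnd)
  obtain ⟨s, r, hsr⟩ := hcop
  have hmz : z ^ n * aeval z q = 0 := by
    have h1 := minpoly.aeval F z
    rw [hq, map_mul, map_pow, aeval_X] at h1
    exact h1
  have h1 : aeval z s * z ^ (n + 1) + aeval z r * aeval z q = 1 := by
    have h2 := congrArg (aeval z) hsr
    rw [map_add, map_mul, map_mul, map_pow, aeval_X, map_one] at h2
    exact h2
  obtain ⟨e, he⟩ : ∃ e, e = aeval z s * z ^ (n + 1) := ⟨_, rfl⟩
  have hep : e = aeval z (s * X ^ (n + 1)) := by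
    rw [he, map_mul, map_pow, aeval_X]
  have heI : e ∈ I := by
    have h2 := hI z hz (aeval z (s * X ^ n)) (hcen _)
    have h3 : aeval z (s * X ^ n) * z = e := by
      rw [he, map_mul, map_pow, aeval_X, mul_assoc, ← pow_succ]
    rwa [h3] at h2
  have h1e : 1 = e + aeval z r * aeval z q := by rw [he, h1]
  have hqn : aeval z q * z ^ n = 0 := by
    rw [hcen, hmz]
  have heq : aeval z r * aeval z q * e = 0 := by
    have h2 : e = z ^ n * (aeval z s * z) := by
      have h3 : z ^ n = aeval z (X ^ n : F[X]) := by rw [map_pow, aeval_X]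
      rw [he, h3, hcen, pow_succ, ← mul_assoc, map_pow, aeval_X, mul_assoc, mul_assoc,
        hcen s z]
    rw [h2, mul_assoc, ← mul_assoc (aeval z q), hqn, zero_mul, mul_zero]
  have hee : e * e = e := by
    have h2 : (e + aeval z r * aeval z q) * e = e := by rw [← h1e, one_mul]
    rw [add_mul, heq, add_zero] at h2
    exact h2
  have he0 : e = 0 := hid e heI hee (by rw [hep]; exact hcen _)
  refine ⟨n, ?_⟩
  have h2 : z ^ n * (e + aeval z r * aeval z q) = z ^ n := by rw [← h1e, mul_one]
  rw [he0, zero_add, hcen, ← mul_assoc, hmz, zero_mul] at h2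
  exact h2.symm

end Pool.Agent.PSS.H56
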