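import Pool.Agent.PSS.StmtsS2

/-!
# Squad PSS, row FPS: sums over the right orbits, fixed points of an `ℓ`-group
-/

set_option autoImplicit false

open scoped BigOperators

noncomputable section

namespace Pool.Agent.PSS.S2.H56

/-- The sum of an invariant function of a finite `ℓ`-group action, in characteristic `ℓ`. -/
theorem sum_fixed {ℓ : ℕ} [Fact ℓ.Prime] {F G T : Type} [Field F] [CharP F ℓ] [Group G]
    [Fintype T] [MulAction G T] (hG : IsPGroup ℓ G) (g : T → F) (hg : ∀ (u : G) t, g (u • t) = g t)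
    (P : T → Prop) [DecidablePred P] (hP : ∀ t, P t ↔ ∀ u : G, u • t = t) :
    ∑ t, g t = ∑ t with P t, g t := by
  classical
  have h1 : ∑ t, g t = ∑ s ∈ Finset.univ.image g,
      ((Finset.univ.filter fun t => g t = s).card : F) * s := by
    rw [← Finset.sum_fiberwise_of_maps_to (s := Finset.univ) (t := Finset.univ.image g) (g := g)
      (fun t _ => Finset.mem_image_of_mem g (Finset.mem_univ t))]
    refine Finset.sum_congr rfl fun s _ => ?_
    rw [Finset.sum_congr rfl (g := fun _ => s) (fun t ht => (Finset.mem_filter.1 ht).2),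
      Finset.sum_const, nsmul_eq_mul]
  have h2 : ∑ t with P t, g t = ∑ s ∈ Finset.univ.image g,
      (((Finset.univ.filter P).filter fun t => g t = s).card : F) * s := by
    rw [← Finset.sum_fiberwise_of_maps_to (s := Finset.univ.filter P)
      (t := Finset.univ.image g) (g := g)
      (fun t _ => Finset.mem_image_of_mem g (Finset.mem_univ t))]
    refine Finset.sum_congr rfl fun s _ => ?_
    rw [Finset.sum_congr rfl (g := fun _ => s) (fun t ht => (Finset.mem_filter.1 ht).2),
      Finset.sum_const, nsmul_eq_mul]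
  rw [h1, h2]
  refine Finset.sum_congr rfl fun s _ => ?_
  congr 1
  letI : MulAction G {t : T // g t = s} :=
    { smul := fun u t => ⟨u • t.1, by rw [hg, t.2]⟩
      one_smul := fun t => Subtype.ext (one_smul G t.1)
      mul_smul := fun u v t => Subtype.ext (mul_smul u v t.1) }
  have h3 := hG.card_modEq_card_fixedPoints {t : T // g t = s}
  have h4 : Nat.card {t : T // g t = s} = (Finset.univ.filter fun t => g t = s).card := by
    rw [Nat.card_eq_fintype_card, Fintype.card_subtype]
  have h5 : Nat.card (MulAction.fixedPoints G {t : T // g t = s}) =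
      ((Finset.univ.filter P).filter fun t => g t = s).card := by
    have e : MulAction.fixedPoints G {t : T // g t = s} ≃
        {t : T // t ∈ (Finset.univ.filter P).filter fun t => g t = s} :=
      { toFun := fun t => ⟨t.1.1, by
          rw [Finset.mem_filter, Finset.mem_filter]
          refine ⟨⟨Finset.mem_univ _, (hP _).2 fun u => ?_⟩, t.1.2⟩
          exact congrArg Subtype.val (t.2 u)⟩
        invFun := fun t => ⟨⟨t.1, (Finset.mem_filter.1 t.2).2⟩, fun u => Subtype.ext
          ((hP _).1 (Finset.mem_filter.1 (Finset.mem_filter.1 t.2).1).2 u)⟩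
        left_inv := fun t => rfl
        right_inv := fun t => rfl }
    rw [Nat.card_congr e, Nat.card_eq_fintype_card, Fintype.card_coe]
  rw [h4, h5] at h3
  exact (CharP.natCast_eq_natCast F ℓ).2 h3

section act

variable {V Ω : Type} [CommGroup V] [MulAction (V × V) Ω]

/-- the representative of the right orbit -/
def nrm (h : Ω → V) (ω : Ω) : Ω := ((1 : V), h ω) • ω

theorem h_nrm {h : Ω → V} (hT : Tz h) (ω : Ω) : h (nrm h ω) = 1 := by
  unfold nrm
  rw [hT, mul_inv_cancel]

theorem nrm_right {h : Ω → V} (hT : Tz h) (v : V) (ω : Ω) :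
    nrm h (((1 : V), v) • ω) = nrm h ω := by
  unfold nrm
  rw [hT, smul_smul, Prod.mk_mul_mk, one_mul, inv_mul_cancel_right]

theorem nrm_self {h : Ω → V} {ω : Ω} (h1 : h ω = 1) : nrm h ω = ω := by
  unfold nrm
  rw [h1]
  exact one_smul (V × V) ω

theorem nrm_nrm {h : Ω → V} (hT : Tz h) (u : V) (ω : Ω) :
    nrm h ((u, (1 : V)) • nrm h ω) = nrm h ((u, (1 : V)) • ω) := by
  have h1 : (u, (1 : V)) • nrm h ω = ((1 : V), h ω) • ((u, (1 : V)) • ω) := by
    unfold nrm
    rw [smul_smul, smul_smul, mul_comm]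
  rw [h1, nrm_right hT]

/-- the left action on the representatives of the right orbits -/
def lact {h : Ω → V} (hT : Tz h) : MulAction V {ω : Ω // h ω = 1} where
  smul := fun u ω => ⟨nrm h ((u, (1 : V)) • ω.1), h_nrm hT _⟩
  one_smul := fun ω => Subtype.ext (by
    change nrm h (((1 : V), (1 : V)) • ω.1) = ω.1
    rw [nrm_right hT, nrm_self ω.2])
  mul_smul := fun u v ω => Subtype.ext (by
    change nrm h ((u * v, (1 : V)) • ω.1) = nrm h ((u, (1 : V)) • nrm h ((v, (1 : V)) • ω.1))
    rw [nrm_nrm hT, smul_smul, Prod.mk_mul_mk, one_mul])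

theorem fix_iff {h : Ω → V} (hT : Tz h) (u : V) (ω : Ω) (h1 : h ω = 1) :
    nrm h ((u, (1 : V)) • ω) = ω ↔ ∃ v : V, (u, v) • ω = ω := by
  constructor
  · intro h2
    refine ⟨h ((u, (1 : V)) • ω), ?_⟩
    unfold nrm at h2
    rwa [smul_smul, Prod.mk_mul_mk, one_mul, mul_one] at h2
  · rintro ⟨v, hv⟩
    have h2 : ((1 : V), v) • ((u, (1 : V)) • ω) = ω := by
      rw [smul_smul, Prod.mk_mul_mk, one_mul, mul_one, hv]
    rw [← nrm_right hT v, h2, nrm_self h1]

end act

/-- FPS. -/
theorem fps : FpsStmt := by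
  intro ℓ _ F V Ω _ _ _ _ _ _ _ h g hV hT hg P _ hP
  letI := lact hT
  have h1 := sum_fixed (F := F) hV (fun ω : {ω : Ω // h ω = 1} => g ω.1) (fun u ω => by
    change g (nrm h ((u, (1 : V)) • ω.1)) = g ω.1
    unfold nrm
    rw [hg, hg]) (fun ω => P ω.1) (fun ω => by
    rw [hP]
    refine forall_congr' fun u => ?_
    rw [← fix_iff hT u ω.1 ω.2]
    exact ⟨fun h => Subtype.ext h, fun h => congrArg Subtype.val h⟩)
  have h2 : ∑ ω with h ω = 1, g ω = ∑ ω : {ω : Ω // h ω = 1}, g ω.1 :=
    (Finset.sum_subtype (Finset.univ.filter fun ω => h ω = 1)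
      (p := fun ω => h ω = 1) (fun ω => by simp) g)
  have h3 : ∑ ω with (h ω = 1 ∧ P ω), g ω =
      ∑ ω : {ω : Ω // h ω = 1} with P ω.1, g ω.1 := by
    rw [Finset.sum_filter (s := (Finset.univ : Finset {ω : Ω // h ω = 1})),
      ← Finset.filter_filter, Finset.sum_filter (s := Finset.univ.filter fun ω => h ω = 1)]
    exact (Finset.sum_subtype (Finset.univ.filter fun ω => h ω = 1)
      (p := fun ω => h ω = 1) (fun ω => by simp) (fun ω => if P ω then g ω else 0))
  rw [h2, h3, h1]

end Pool.Agent.PSS.S2.H56
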