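import Pool.Agent.PSS.StmtsS2

/-!
# Squad PSS, row STR: left and right multiplication with the sum of the group have the same trace
-/

set_option autoImplicit false

open scoped BigOperators

noncomputable section

namespace Pool.Agent.PSS.S2.H56

open Pool.Agent.PFC (tw IsTv)
open Pool.Agent.PFD.D2b (FrR)

theorem bw_apply' {R V A : Type} [CommRing R] [CommGroup V] [Ring A] [Algebra R A] (α : V →* A)
    (p : V × V) (a : A) : bw R α p a = α p.1 * (a * α p.2⁻¹) := rfl

theorem comm_al {V A : Type} [CommGroup V] [Ring A] (α : V →* A) (u v : V) :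
    α u * α v = α v * α u := by
  rw [← map_mul, ← map_mul, mul_comm]

theorem sg_comm {V A : Type} [CommGroup V] [Fintype V] [Ring A] (α : V →* A) (v : V) :
    α v * sg α = sg α * α v := by
  unfold sg
  rw [Finset.mul_sum, Finset.sum_mul]
  exact Finset.sum_congr rfl fun u _ => comm_al α v u

/-- the trace through the frame -/
theorem frame_trace {R V A K Ω : Type} [CommRing R] [CommGroup V] [Ring A]
    [Algebra R A] [Fintype K] [Fintype Ω] [MulAction (V × V) Ω] (α : V →* A)
    (lam : A →ₗ[R] R) (x y : K → A) (b : Ω → A) (c : Ω → (A →ₗ[R] R)) (f : A →ₗ[R] A)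
    (hb : FrR (bw R α) b c) :
    ∑ ω, (1 : R) * ∑ k, c ω (x k) * lam (y k * f (b ω)) = ∑ k, lam (y k * f (x k)) := by
  simp only [one_mul]
  rw [Finset.sum_comm]
  refine Finset.sum_congr rfl fun k _ => ?_
  conv_rhs => rw [← hb.2.2 (x k)]
  rw [map_sum, Finset.mul_sum, map_sum]
  refine Finset.sum_congr rfl fun ω _ => ?_
  rw [map_smul, mul_smul_comm, map_smul, smul_eq_mul]

/-- STR. -/
theorem str (htr : HtrStmt) (wtr : WtrStmt) (fps : FpsStmt) : StrStmt := by
  intro ℓ _ F V E A K Ω _ _ _ _ _ _ _ _ _ _ φ α lam x y b c f hV hRF hPr hfr hfl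
  classical
  obtain ⟨h, hT⟩ := htr F V E A Ω φ α b c hPr
  have hfr' := hPr.fr
  -- the two maps
  let f₁ : A →ₗ[F] A := (LinearMap.mulLeft F (sg α)).comp f
  let f₂ : A →ₗ[F] A := (LinearMap.mulRight F (sg α)).comp f
  have e1 := wtr F V A K Ω α lam x y b c h (fun _ => 1) f₁ hRF hfr' hT (fun _ _ => rfl)
    (fun a v => by
      change sg α * f (a * α v) = sg α * f a * α v
      rw [hfr, mul_assoc])
  have e2 := wtr F V A K Ω α lam x y b c h (fun _ => 1) f₂ hRF hfr' hT (fun _ _ => rfl)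
    (fun a v => by
      change f (a * α v) * sg α = f a * sg α * α v
      rw [hfr, mul_assoc, sg_comm, mul_assoc])
  rw [frame_trace α lam x y b c f₁ hfr'] at e1
  rw [frame_trace α lam x y b c f₂ hfr'] at e2
  have k1 : ∑ k, lam (y k * (sg α * f (x k))) =
      ∑ ω with h ω = 1, ∑ u, c ω (α u * f (b ω)) := by
    refine e1.trans (Finset.sum_congr rfl fun ω _ => ?_)
    rw [one_mul]
    change c ω (sg α * f (b ω)) = _
    unfold sg
    rw [Finset.sum_mul, map_sum]
  have k2 : ∑ k, lam (y k * (f (x k) * sg α)) =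
      ∑ ω with h ω = 1, ∑ v, c ω (f (b ω) * α v) := by
    refine e2.trans (Finset.sum_congr rfl fun ω _ => ?_)
    rw [one_mul]
    change c ω (f (b ω) * sg α) = _
    unfold sg
    rw [Finset.mul_sum, map_sum]
  have hfb : ∀ (p : V × V) ω, f (b (p • ω)) = bw F α p (f (b ω)) := by
    intro p ω
    rw [hfr'.1, bw_apply', bw_apply', hfl, hfr]
  have i1 : ∀ (p : V × V) ω, ∑ u, c (p • ω) (α u * f (b (p • ω))) =
      ∑ u, c ω (α u * f (b ω)) := by
    intro p ω
    refine Finset.sum_congr rfl fun u _ => ?_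
    rw [← hfr'.2.1 p ω (α u * f (b ω)), hfb]
    congr 1
    rw [bw_apply', bw_apply', ← mul_assoc, comm_al α u p.1, mul_assoc, mul_assoc]
  have i2 : ∀ (p : V × V) ω, ∑ v, c (p • ω) (f (b (p • ω)) * α v) =
      ∑ v, c ω (f (b ω) * α v) := by
    intro p ω
    refine Finset.sum_congr rfl fun u _ => ?_
    rw [← hfr'.2.1 p ω (f (b ω) * α u), hfb]
    congr 1
    rw [bw_apply', bw_apply', mul_assoc, mul_assoc, mul_assoc, comm_al α p.2⁻¹ u]
  rw [k1, k2, fps ℓ F V Ω h (fun ω => ∑ u, c ω (α u * f (b ω))) hV hT i1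
      (fun ω => ∀ u : V, ∃ v : V, (u, v) • ω = ω) (fun _ => Iff.rfl),
    fps ℓ F V Ω h (fun ω => ∑ v, c ω (f (b ω) * α v)) hV hT i2
      (fun ω => ∀ u : V, ∃ v : V, (u, v) • ω = ω) (fun _ => Iff.rfl)]
  refine Finset.sum_congr rfl fun ω hω => ?_
  obtain ⟨-, hP⟩ := (Finset.mem_filter.1 hω).2
  obtain ⟨e, S, hst⟩ := hPr.st ω
  have hv : ∀ v : V, (φ e v, v) • ω = ω := by
    intro v
    obtain ⟨v', hv'⟩ := hP (φ e v)
    have h1 : (φ e v, v') ∈ MulAction.stabilizer (V × V) ω := hv'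
    rw [hst] at h1
    obtain ⟨s, -, hs⟩ := h1
    have h2 : φ e s = φ e v := congrArg Prod.fst hs
    have h3 : s = v' := congrArg Prod.snd hs
    have h4 : s = v := (φ e).injective h2
    rw [← h3, h4] at hv'
    exact hv'
  have hbv : ∀ v : V, α (φ e v) * b ω = b ω * α v := by
    intro v
    have h1 : b ω = α (φ e v) * (b ω * α v⁻¹) := by
      conv_lhs => rw [← hv v, hfr'.1]
      rfl
    calc α (φ e v) * b ω = α (φ e v) * (b ω * (α v⁻¹ * α v)) := by
          rw [← map_mul, inv_mul_cancel, map_one, mul_one]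
      _ = α (φ e v) * (b ω * α v⁻¹) * α v := by simp only [mul_assoc]
      _ = b ω * α v := by rw [← h1]
  have hfv : ∀ v : V, f (b ω) * α v = α (φ e v) * f (b ω) := by
    intro v
    rw [← hfr, ← hbv, hfl]
  simp only [hfv]
  exact (Equiv.sum_comp (φ e).toEquiv fun u => c ω (α u * f (b ω))).symm

end Pool.Agent.PSS.S2.H56
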